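import Pool.Agent.H39.Newt2.Base

/-!
# Project NEWTON2, module PSI: Moebius inversion and poles
-/

set_option autoImplicit false

namespace Pool.Newt2

open MvPolynomial Pool.Agent.H39.MonoR Pool.Agent.H75.Mono Pool.Newt

namespace PSI

section Rt

variable {σ I : Type} [Fintype σ] [Fintype I] {a : I → σ → ℕ} {X : ℝ}

/-- the coefficients of `dW W * S` vanish from `N0` on -/
def Rt (a : I → σ → ℕ) (X : ℝ) (W : Multiset (σ → ℕ)) (N0 : ℕ) (S : PowerSeries ℝ) : Prop :=
  ∀ N, N0 ≤ N → PowerSeries.coeff N (dW a X W * S) = 0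

omit [Fintype I] in
theorem Rt.mono {W : Multiset (σ → ℕ)} {N0 N1 : ℕ} {S : PowerSeries ℝ} (h : Rt a X W N0 S)
    (h1 : N0 ≤ N1) : Rt a X W N1 S := fun N hN => h N (h1.trans hN)

omit [Fintype I] in
theorem Rt.add {W : Multiset (σ → ℕ)} {N0 : ℕ} {S S' : PowerSeries ℝ} (h : Rt a X W N0 S)
    (h' : Rt a X W N0 S') : Rt a X W N0 (S + S') := by
  intro N hN
  rw [mul_add, map_add, h N hN, h' N hN, add_zero]

omit [Fintype I] in
theorem Rt.smul {W : Multiset (σ → ℕ)} {N0 : ℕ} {S : PowerSeries ℝ} (h : Rt a X W N0 S)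
    (r : ℝ) : Rt a X W N0 (PowerSeries.C r * S) := by
  intro N hN
  rw [mul_left_comm, PowerSeries.coeff_C_mul, h N hN, mul_zero]

omit [Fintype I] in
theorem Rt.zero {W : Multiset (σ → ℕ)} {N0 : ℕ} : Rt a X W N0 0 := by
  intro N _
  rw [mul_zero, map_zero]

omit [Fintype I] in
theorem Rt.sum {ι : Type} (s : Finset ι) {W : Multiset (σ → ℕ)} {N0 : ℕ} (f : ι → PowerSeries ℝ)
    (h : ∀ i ∈ s, Rt a X W N0 (f i)) : Rt a X W N0 (∑ i ∈ s, f i) := by
  intro N hN
  rw [Finset.mul_sum, map_sum]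
  exact Finset.sum_eq_zero fun i hi => h i hi N hN

omit [Fintype I] in
theorem Rt.oneSub {W : Multiset (σ → ℕ)} {N0 : ℕ} {S : PowerSeries ℝ} (h : Rt a X W N0 S) :
    Rt a X W (N0 + 1) ((1 - PowerSeries.X) * S) := by
  intro N hN
  obtain ⟨M, rfl⟩ : ∃ M, N = M + 1 := ⟨N - 1, by omega⟩
  rw [mul_left_comm, sub_mul, one_mul, map_sub, PowerSeries.coeff_succ_X_mul,
    h (M + 1) (by omega), h M (by omega), sub_zero]

theorem coeff_mul_zero (c : ℝ) (m : ℕ) (S : PowerSeries ℝ) {N0 : ℕ}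
    (h : ∀ N, N0 ≤ N → PowerSeries.coeff N S = 0) {N : ℕ} (hN : N0 + m ≤ N) :
    PowerSeries.coeff N ((1 - PowerSeries.C c * PowerSeries.X ^ m) * S) = 0 := by
  rw [sub_mul, one_mul, map_sub, mul_assoc, PowerSeries.coeff_C_mul, PowerSeries.coeff_X_pow_mul',
    if_pos (by omega), h N (by omega), h (N - m) (by omega), mul_zero, sub_zero]

omit [Fintype I] in
theorem Rt.le {W W' : Multiset (σ → ℕ)} {N0 : ℕ} {S : PowerSeries ℝ} (h : Rt a X W N0 S)
    (hW : W ≤ W') : Rt a X W' (N0 + (W'.map (Nw a)).sum) S := by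
  obtain ⟨V, rfl⟩ := Multiset.le_iff_exists_add.1 hW
  suffices H : Rt a X (W + V) (N0 + (V.map (Nw a)).sum) S by
    refine H.mono ?_
    rw [Multiset.map_add, Multiset.sum_add]
    omega
  clear hW
  induction V using Multiset.induction with
  | empty => simpa using h
  | cons v V ih =>
    intro N hN
    rw [Multiset.map_cons, Multiset.sum_cons] at hN
    rw [Multiset.add_cons]
    unfold dW
    rw [Multiset.map_cons, Multiset.prod_cons, mul_assoc]
    exact coeff_mul_zero _ _ _ ih (by omega)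

end Rt

section Moeb

/-- Moebius inversion -/
theorem mob {I : Type} [DecidableEq I] (f : Finset I → ℝ) (R : Finset I) :
    ∑ Q ∈ R.powerset, ∑ P ∈ Q.powerset, (-1 : ℝ) ^ (Q \ P).card * f P = f R := by
  induction R using Finset.induction_on generalizing f with
  | empty => simp
  | insert i R hi ih =>
    rw [Finset.sum_powerset_insert hi]
    have h1 : ∀ Q ∈ R.powerset, ∑ P ∈ (insert i Q).powerset,
        (-1 : ℝ) ^ (insert i Q \ P).card * f P =
        -(∑ P ∈ Q.powerset, (-1 : ℝ) ^ (Q \ P).card * f P) +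
          ∑ P ∈ Q.powerset, (-1 : ℝ) ^ (Q \ P).card * f (insert i P) := by
      intro Q hQ
      have hiQ : i ∉ Q := fun h => hi (Finset.mem_powerset.1 hQ h)
      rw [Finset.sum_powerset_insert hiQ, ← Finset.sum_neg_distrib]
      congr 1
      · refine Finset.sum_congr rfl fun P hP => ?_
        have hiP : i ∉ P := fun h => hiQ (Finset.mem_powerset.1 hP h)
        rw [Finset.insert_sdiff_of_notMem _ hiP, Finset.card_insert_of_notMem
          (fun h => hiQ (Finset.mem_sdiff.1 h).1), pow_succ]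
        ring
      · refine Finset.sum_congr rfl fun P hP => ?_
        have : insert i Q \ insert i P = Q \ P := by
          ext j
          simp only [Finset.mem_sdiff, Finset.mem_insert]
          constructor
          · rintro ⟨h1, h2⟩
            push Not at h2
            exact ⟨h1.resolve_left h2.1, h2.2⟩
          · rintro ⟨h1, h2⟩
            refine ⟨Or.inr h1, ?_⟩
            rintro (rfl | h3)
            · exact hiQ h1
            · exact h2 h3
        rw [this]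
    rw [Finset.sum_congr rfl h1, Finset.sum_add_distrib, Finset.sum_neg_distrib, ih,
      ih (fun P => f (insert i P))]
    ring

/-- reindexing of the pairs `(Z, P)`, `P` in `Y \ Z`, by `τ = Z ∪ P` and `Q = Z ∩ Y` -/
theorem reidx {I : Type} [Fintype I] [DecidableEq I] {M : Type} [AddCommMonoid M] (Y : Finset I)
    (F : Finset I → Finset I → M) :
    ∑ Z : Finset I, ∑ P ∈ (Y \ Z).powerset, F Z P =
      ∑ τ : Finset I, ∑ Q ∈ (τ ∩ Y).powerset, F ((τ \ Y) ∪ Q) ((τ ∩ Y) \ Q) := by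
  rw [Finset.sum_sigma', Finset.sum_sigma']
  refine Finset.sum_bij' (fun p _ => ⟨p.1 ∪ p.2, p.1 ∩ Y⟩)
    (fun p _ => ⟨(p.1 \ Y) ∪ p.2, (p.1 ∩ Y) \ p.2⟩) ?_ ?_ ?_ ?_ ?_
  · rintro ⟨Z, P⟩ h
    simp only [Finset.mem_sigma, Finset.mem_univ, true_and, Finset.mem_powerset] at h ⊢
    intro j hj
    rw [Finset.mem_inter] at hj ⊢
    exact ⟨Finset.mem_union_left _ hj.1, hj.2⟩
  · rintro ⟨τ, Q⟩ h
    simp only [Finset.mem_sigma, Finset.mem_univ, true_and, Finset.mem_powerset] at h ⊢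
    intro j hj
    rw [Finset.mem_sdiff, Finset.mem_inter] at hj
    rw [Finset.mem_sdiff, Finset.mem_union, Finset.mem_sdiff]
    refine ⟨hj.1.2, ?_⟩
    rintro (h1 | h1)
    · exact h1.2 hj.1.2
    · exact hj.2 h1
  · rintro ⟨Z, P⟩ h
    simp only [Finset.mem_sigma, Finset.mem_univ, true_and, Finset.mem_powerset] at h
    have hP : ∀ j ∈ P, j ∈ Y ∧ j ∉ Z := fun j hj => Finset.mem_sdiff.1 (h hj)
    have h1 : (Z ∪ P) \ Y ∪ Z ∩ Y = Z := by
      ext j
      simp only [Finset.mem_union, Finset.mem_sdiff, Finset.mem_inter]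
      have := hP j
      tauto
    have h2 : ((Z ∪ P) ∩ Y) \ (Z ∩ Y) = P := by
      ext j
      simp only [Finset.mem_union, Finset.mem_sdiff, Finset.mem_inter]
      have := hP j
      tauto
    simp only [h1, h2]
  · rintro ⟨τ, Q⟩ h
    simp only [Finset.mem_sigma, Finset.mem_univ, true_and, Finset.mem_powerset] at h
    have hQ : ∀ j ∈ Q, j ∈ τ ∧ j ∈ Y := fun j hj => Finset.mem_inter.1 (h hj)
    have h1 : ((τ \ Y) ∪ Q) ∪ ((τ ∩ Y) \ Q) = τ := by
      ext j
      simp only [Finset.mem_union, Finset.mem_sdiff, Finset.mem_inter]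
      have := hQ j
      tauto
    have h2 : ((τ \ Y) ∪ Q) ∩ Y = Q := by
      ext j
      simp only [Finset.mem_union, Finset.mem_sdiff, Finset.mem_inter]
      have := hQ j
      tauto
    simp only [h1, h2]
  · rintro ⟨Z, P⟩ h
    simp only [Finset.mem_sigma, Finset.mem_univ, true_and, Finset.mem_powerset] at h
    have hP : ∀ j ∈ P, j ∈ Y ∧ j ∉ Z := fun j hj => Finset.mem_sdiff.1 (h hj)
    have h1 : (Z ∪ P) \ Y ∪ Z ∩ Y = Z := by
      ext j
      simp only [Finset.mem_union, Finset.mem_sdiff, Finset.mem_inter]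
      have := hP j
      tauto
    have h2 : ((Z ∪ P) ∩ Y) \ (Z ∩ Y) = P := by
      ext j
      simp only [Finset.mem_union, Finset.mem_sdiff, Finset.mem_inter]
      have := hP j
      tauto
    simp only [h1, h2]

end Moeb

section Rel

variable {σ I : Type} [Fintype σ] [Fintype I]

/-- clearing denominators -/
theorem clear (κ : I → ℚ) : ∃ (m : ℕ) (z : I → ℤ), m ≠ 0 ∧ ∀ i, (z i : ℚ) = m * κ i := by
  classical
  refine ⟨∏ j, (κ j).den, fun i => (κ i).num * (((∏ j, (κ j).den) / (κ i).den : ℕ) : ℤ),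
    Finset.prod_ne_zero_iff.2 fun j _ => (κ j).den_nz, fun i => ?_⟩
  have hd : (κ i).den ∣ ∏ j, (κ j).den := Finset.dvd_prod_of_mem _ (Finset.mem_univ i)
  obtain ⟨q, hq⟩ := hd
  have h0 : (κ i).den ≠ 0 := (κ i).den_nz
  show (((κ i).num * (((∏ j, (κ j).den) / (κ i).den : ℕ) : ℤ) : ℤ) : ℚ) =
    ((∏ j, (κ j).den : ℕ) : ℚ) * κ i
  rw [hq, Nat.mul_div_cancel_left q (Nat.pos_of_ne_zero h0)]
  push_cast
  have h1 : ((κ i).num : ℚ) = κ i * (κ i).den := (Rat.mul_den_eq_num (κ i)).symm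
  rw [h1]
  ring

open Classical in
/-- the expected rank -/
noncomputable def ee (a : I → σ → ℕ) (Y τ : Finset I) : ℕ := rk a (τ \ Y) + (τ ∩ Y).card

omit [Fintype σ] in
open Classical in
theorem rel (a : I → σ → ℕ) (Y τ : Finset I) (h : rk a τ ≠ ee a Y τ) :
    ∃ κ : I → ℤ, (∀ i, i ∉ τ → κ i = 0) ∧ (∀ l, ∑ i, κ i * (a i l : ℤ) = 0) ∧
      ∃ i ∈ Y, i ∈ τ ∧ κ i ≠ 0 := by
  by_contra hc
  push Not at hc
  apply h
  -- no rational relations
  have hQ : ∀ κ : I → ℚ, (∀ i, i ∉ τ → κ i = 0) → (∀ l, ∑ i, κ i * (a i l : ℚ) = 0) →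
      ∀ i ∈ Y, i ∈ τ → κ i = 0 := by
    intro κ h1 h2 i hi hi'
    obtain ⟨m, z, hm, hz⟩ := clear κ
    have hz0 : z i = 0 := by
      refine hc z (fun j hj => ?_) (fun l => ?_) i hi hi'
      · have := hz j
        rw [h1 j hj, mul_zero] at this
        exact_mod_cast this
      · have h3 : ((∑ j, z j * (a j l : ℤ) : ℤ) : ℚ) = 0 := by
          push_cast
          rw [Finset.sum_congr rfl fun j _ => by rw [hz j, mul_assoc], ← Finset.mul_sum, h2 l,
            mul_zero]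
        exact_mod_cast h3
    have := hz i
    rw [hz0, Int.cast_zero] at this
    rcases mul_eq_zero.1 this.symm with h3 | h3
    · exact absurd (by exact_mod_cast h3) hm
    · exact h3
  set v : I → σ → ℚ := fun i l => (a i l : ℚ) with hv
  have hrk : ∀ s : Finset I, rk a s = Module.finrank ℚ (Submodule.span ℚ (v '' (s : Set I))) := by
    intro s
    unfold rk
    have : (Set.range fun (i : s) (l : σ) => (a i l : ℚ)) = v '' (s : Set I) := by
      ext x
      constructor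
      · rintro ⟨i, rfl⟩
        exact ⟨i, i.2, rfl⟩
      · rintro ⟨i, hi, rfl⟩
        exact ⟨⟨i, hi⟩, rfl⟩
    rw [this]
  have hu : τ = (τ \ Y) ∪ (τ ∩ Y) := by
    ext j
    simp only [Finset.mem_union, Finset.mem_sdiff, Finset.mem_inter]
    tauto
  have hspan : Submodule.span ℚ (v '' (τ : Set I)) =
      Submodule.span ℚ (v '' ((τ \ Y : Finset I) : Set I)) ⊔
        Submodule.span ℚ (v '' ((τ ∩ Y : Finset I) : Set I)) := by
    conv_lhs => rw [hu]
    rw [Finset.coe_union, Set.image_union, Submodule.span_union]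
  have hmem : ∀ (s : Finset I) (x : σ → ℚ), x ∈ Submodule.span ℚ (v '' (s : Set I)) →
      ∃ c : I → ℚ, (∀ i, i ∉ s → c i = 0) ∧ ∀ l, x l = ∑ i, c i * (a i l : ℚ) := by
    intro s x hx
    induction hx using Submodule.span_induction with
    | mem x hx =>
      obtain ⟨i, hi, rfl⟩ := hx
      refine ⟨Pi.single i 1, fun j hj => ?_, fun l => ?_⟩
      · rw [Pi.single_apply, if_neg]
        rintro rfl
        exact hj hi
      · rw [Finset.sum_eq_single i]
        · rw [Pi.single_eq_same, one_mul]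
        · intro j _ hj
          rw [Pi.single_apply, if_neg hj, zero_mul]
        · intro hj
          exact absurd (Finset.mem_univ i) hj
    | zero => exact ⟨0, fun _ _ => rfl, fun l => by simp⟩
    | add x y _ _ hx hy =>
      obtain ⟨c, hc1, hc2⟩ := hx
      obtain ⟨d, hd1, hd2⟩ := hy
      refine ⟨c + d, fun i hi => ?_, fun l => ?_⟩
      · rw [Pi.add_apply, hc1 i hi, hd1 i hi, add_zero]
      · rw [Pi.add_apply, hc2, hd2, ← Finset.sum_add_distrib]
        exact Finset.sum_congr rfl fun i _ => by rw [Pi.add_apply, add_mul]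
    | smul r x _ hx =>
      obtain ⟨c, hc1, hc2⟩ := hx
      refine ⟨r • c, fun i hi => ?_, fun l => ?_⟩
      · rw [Pi.smul_apply, hc1 i hi, smul_zero]
      · rw [Pi.smul_apply, hc2, smul_eq_mul, Finset.mul_sum]
        exact Finset.sum_congr rfl fun i _ => by rw [Pi.smul_apply, smul_eq_mul, mul_assoc]
  have hinf : Submodule.span ℚ (v '' ((τ \ Y : Finset I) : Set I)) ⊓
      Submodule.span ℚ (v '' ((τ ∩ Y : Finset I) : Set I)) = ⊥ := by
    rw [eq_bot_iff]
    rintro x ⟨hx1, hx2⟩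
    obtain ⟨c, hc1, hc2⟩ := hmem _ x hx1
    obtain ⟨d, hd1, hd2⟩ := hmem _ x hx2
    have hd0 : ∀ i, d i = 0 := by
      intro i
      by_cases hi : i ∈ τ ∩ Y
      · rw [Finset.mem_inter] at hi
        have h3 := hQ (c - d) (fun j hj => by
          rw [Pi.sub_apply, hc1 j (fun h => hj (Finset.mem_sdiff.1 h).1),
            hd1 j (fun h => hj (Finset.mem_inter.1 h).1), sub_zero]) (fun l => by
          rw [Finset.sum_congr rfl fun j _ => by rw [Pi.sub_apply, sub_mul],
            Finset.sum_sub_distrib, ← hc2, ← hd2, sub_self]) i hi.2 hi.1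
        rw [Pi.sub_apply, hc1 i (fun h => (Finset.mem_sdiff.1 h).2 hi.2), zero_sub] at h3
        exact neg_eq_zero.1 h3
      · exact hd1 i hi
    rw [Submodule.mem_bot]
    funext l
    rw [hd2 l]
    exact Finset.sum_eq_zero fun i _ => by rw [hd0, zero_mul]
  have hcard : Module.finrank ℚ (Submodule.span ℚ (v '' ((τ ∩ Y : Finset I) : Set I))) =
      (τ ∩ Y).card := by
    have hli : LinearIndependent ℚ (fun i : (τ ∩ Y : Finset I) => v i) := by
      rw [Fintype.linearIndependent_iff]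
      intro g hg i
      have h3 := hQ (fun j => if h : j ∈ τ ∩ Y then g ⟨j, h⟩ else 0) (fun j hj => by
        rw [dif_neg (fun h => hj (Finset.mem_inter.1 h).1)]) (fun l => by
        have h4 := congrFun hg l
        rw [Finset.sum_apply] at h4
        have h5 : ∑ j : (τ ∩ Y : Finset I), (g j • v j) l =
            ∑ j : (τ ∩ Y : Finset I), (if h : (j : I) ∈ τ ∩ Y then g ⟨j, h⟩ else 0) *
              (a j l : ℚ) := by
          refine Finset.sum_congr rfl fun j _ => ?_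
          rw [dif_pos j.2]
          rfl
        rw [h5] at h4
        rw [Finset.sum_coe_sort (τ ∩ Y) (fun j => (if h : j ∈ τ ∩ Y then g ⟨j, h⟩ else 0) *
          (a j l : ℚ))] at h4
        rw [← Finset.sum_subset (Finset.subset_univ (τ ∩ Y))]
        · exact h4
        · intro j _ hj
          rw [dif_neg hj, zero_mul]) i (Finset.mem_inter.1 i.2).2 (Finset.mem_inter.1 i.2).1
      rw [dif_pos i.2] at h3
      exact h3
    have h6 := finrank_span_eq_card hli
    have h7 : (Set.range fun i : (τ ∩ Y : Finset I) => v i) =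
        v '' ((τ ∩ Y : Finset I) : Set I) := by
      ext x
      constructor
      · rintro ⟨i, rfl⟩
        exact ⟨i, i.2, rfl⟩
      · rintro ⟨i, hi, rfl⟩
        exact ⟨⟨i, hi⟩, rfl⟩
    rw [h7, Fintype.card_coe] at h6
    exact h6
  have : Module.Finite ℚ (Submodule.span ℚ (v '' ((τ \ Y : Finset I) : Set I))) :=
    Module.Finite.span_of_finite ℚ ((Finset.finite_toSet _).image _)
  have : Module.Finite ℚ (Submodule.span ℚ (v '' ((τ ∩ Y : Finset I) : Set I))) :=
    Module.Finite.span_of_finite ℚ ((Finset.finite_toSet _).image _)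
  have h8 := Submodule.finrank_sup_add_finrank_inf_eq
    (Submodule.span ℚ (v '' ((τ \ Y : Finset I) : Set I)))
    (Submodule.span ℚ (v '' ((τ ∩ Y : Finset I) : Set I)))
  rw [hinf, finrank_bot, add_zero, ← hspan, hcard, ← hrk, ← hrk] at h8
  exact h8

end Rel

section Poles

variable {σ I : Type} [Fintype σ] [Fintype I]

open Classical in
/-- the slab coordinates of `Z` -/
noncomputable def sl (σ : Type) {I : Type} (Z : Finset I) : Finset (Co σ I) :=
  Z.image fun i => (some (Sum.inr i) : Co σ I)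

omit [Fintype σ] [Fintype I] in
theorem mem_sl {Z : Finset I} {i : I} :
    (some (Sum.inr i) : Co σ I) ∈ sl σ Z ↔ i ∈ Z := by
  classical
  unfold sl
  rw [Finset.mem_image]
  constructor
  · rintro ⟨j, hj, h⟩
    have := Sum.inr_injective (Option.some_injective _ h)
    exact this ▸ hj
  · exact fun h => ⟨i, h, rfl⟩

omit [Fintype I] [Fintype σ] in
theorem phi_none (x : ℝ) (Z Y : Finset I) (v : ℤ) (hv : v ≤ 0) :
    phi (σ := σ) x Z Y none v = 0 := by
  unfold phi
  exact if_neg (by omega)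

omit [Fintype I] [Fintype σ] in
open Classical in
theorem phi_thr (x : ℝ) (Z Y : Finset I) (ξ : Co σ I) : Thr 1 (phi x Z Y ξ) := by
  rcases ξ with _ | l | i
  · refine ⟨fun v hv => ?_, fun v hv => ?_⟩
    · exact if_neg (by push_cast at hv; omega)
    · show (if 1 ≤ v then (1 : ℝ) else 0) = if (1 : ℤ) ≤ ((1 : ℕ) : ℤ) then 1 else 0
      rw [if_pos (by push_cast at hv; omega), if_pos (by norm_num)]
  · refine ⟨fun v hv => ?_, fun v hv => ?_⟩
    · exact if_neg (by push_cast at hv; omega)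
    · show (if 0 ≤ v then (1 : ℝ) else 0) = if (0 : ℤ) ≤ ((1 : ℕ) : ℤ) then 1 else 0
      rw [if_pos (by push_cast at hv; omega), if_pos (by norm_num)]
  · by_cases hZ : i ∈ Z
    · have e : phi (σ := σ) x Z Y (some (Sum.inr i)) = fun v => if v = 0 then (1 : ℝ) else 0 := by
        funext v
        exact if_pos hZ
      rw [e]
      refine ⟨fun v hv => ?_, fun v hv => ?_⟩
      · exact if_neg (by push_cast at hv; omega)
      · show (if v = 0 then (1 : ℝ) else 0) = if ((1 : ℕ) : ℤ) = 0 then 1 else 0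
        rw [if_neg (by push_cast at hv; omega), if_neg (by norm_num)]
    · by_cases hY : i ∈ Y
      · have e : phi (σ := σ) x Z Y (some (Sum.inr i)) =
            fun v => if v < 0 then (0 : ℝ) else if v = 0 then -1 / (x - 1) else 1 := by
          funext v
          show (if i ∈ Z then _ else if i ∈ Y then _ else _) = _
          rw [if_neg hZ, if_pos hY]
        rw [e]
        refine ⟨fun v hv => ?_, fun v hv => ?_⟩
        · exact if_pos (by push_cast at hv; omega)
        · show (if v < 0 then (0 : ℝ) else if v = 0 then -1 / (x - 1) else 1) =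
            if ((1 : ℕ) : ℤ) < 0 then (0 : ℝ) else if ((1 : ℕ) : ℤ) = 0 then -1 / (x - 1) else 1
          rw [if_neg (by push_cast at hv; omega), if_neg (by push_cast at hv; omega),
            if_neg (by norm_num), if_neg (by norm_num)]
      · have e : phi (σ := σ) x Z Y (some (Sum.inr i)) =
            fun v => if 0 < v then (1 : ℝ) else 0 := by
          funext v
          show (if i ∈ Z then _ else if i ∈ Y then _ else _) = _
          rw [if_neg hZ, if_neg hY]
        rw [e]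
        refine ⟨fun v hv => ?_, fun v hv => ?_⟩
        · exact if_neg (by push_cast at hv; omega)
        · show (if 0 < v then (1 : ℝ) else 0) = if (0 : ℤ) < ((1 : ℕ) : ℤ) then 1 else 0
          rw [if_pos (by push_cast at hv; omega), if_pos (by norm_num)]

omit [Fintype I] [Fintype σ] in
open Classical in
theorem phi_slb (x : ℝ) (Z Y : Finset I) {i : I} (hi : i ∈ Z) :
    Slb 1 (phi (σ := σ) x Z Y (some (Sum.inr i))) := by
  have e : phi (σ := σ) x Z Y (some (Sum.inr i)) = fun v => if v = 0 then (1 : ℝ) else 0 := by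
    funext v
    exact if_pos hi
  rw [e]
  refine ⟨fun v hv => ?_, fun v hv => ?_⟩
  · exact if_neg (by push_cast at hv; omega)
  · exact if_neg (by push_cast at hv; omega)

/-- the numerator of the factor `g` -/
noncomputable def gam (x : ℝ) : ℤ → ℝ := fun v => if 0 ≤ v then x / (x - 1) else 0

theorem gam_thr (x : ℝ) : Thr 1 (gam x) := by
  refine ⟨fun v hv => ?_, fun v hv => ?_⟩
  · exact if_neg (by push_cast at hv; omega)
  · show (if 0 ≤ v then x / (x - 1) else 0) = if (0 : ℤ) ≤ ((1 : ℕ) : ℤ) then x / (x - 1) else 0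
    rw [if_pos (by push_cast at hv; omega), if_pos (by norm_num)]

omit [Fintype I] [Fintype σ] in
open Classical in
theorem phi_gam (x : ℝ) (hx : 1 < x) (Z Y : Finset I) {i : I} (hZ : i ∉ Z) (hY : i ∈ Y) :
    phi (σ := σ) x Z Y (some (Sum.inr i)) = fun v => gam x (v - 1) - x⁻¹ * gam x v := by
  have h1 : x - 1 ≠ 0 := by linarith
  have h2 : x ≠ 0 := by linarith
  funext v
  show (if i ∈ Z then _ else if i ∈ Y then _ else _) = _
  rw [if_neg hZ, if_pos hY]
  unfold gam
  rcases lt_trichotomy v 0 with hv | hv | hv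
  · rw [if_pos hv, if_neg (by omega), if_neg (by omega)]
    ring
  · subst hv
    rw [if_neg (by omega), if_pos rfl, if_neg (by omega), if_pos le_rfl]
    field_simp
    ring
  · rw [if_neg (by omega), if_neg (by omega), if_pos (by omega), if_pos (by omega)]
    field_simp

variable [Nonempty I]

/-- good sets of weights -/
def GW (a : I → σ → ℕ) (Y : Finset I) (l : I → σ) (W : Multiset (σ → ℕ)) : Prop :=
  ∀ w ∈ W, Rigid a w ∧ 0 < Nw a w ∧ ¬ Lab a Y l w

/-- the lattice sums of `phi` have no labelled poles -/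
theorem bZ (hSlb : SSlb) (a : I → σ → ℕ) (Y : Finset I) (l : I → σ)
    (hl : ∀ i ∈ Y, a i (l i) = 1) (Z : Finset I) (hZ : ∀ i ∈ Z, i ∈ Y → ¬ Val a Z i (l i)) :
    ∃ (W : Multiset (σ → ℕ)) (N0 : ℕ), GW a Y l W ∧
      ∀ x : ℝˣ, 1 < (x : ℝ) →
        Rt a (↑(x⁻¹) : ℝ) W N0 (Ser a (↑(x⁻¹) : ℝ) (phi x Z Y)) := by
  classical
  obtain ⟨W, N0, hW, h⟩ := hSlb σ I a (Y \ Z) l
    (fun i hi => hl i (Finset.mem_sdiff.1 hi).1) (sl σ Z) 1
  refine ⟨W, N0, fun w hw => ?_, fun x hx => ?_⟩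
  · obtain ⟨h1, h2, h3, h4⟩ := hW w hw
    refine ⟨h1, h2, fun hL => ?_⟩
    have hface : ∀ i ∈ Z, i ∈ face a w := fun i hi =>
      (lam_face a w i).1 (h3 _ (mem_sl.2 hi) (by simp))
    obtain ⟨i, hiY, hif, hwi, hi⟩ := hL.1
    by_cases hiZ : i ∈ Z
    · exact hZ i hiZ hiY ⟨hiZ, hl i hiY, fun i' hi' hne => hi i' (hface i' hi') hne⟩
    · rcases h4 i (Finset.mem_sdiff.2 ⟨hiY, hiZ⟩) with h5 | ⟨i', h6, h7, h8⟩
      · exact hwi h5
      · exact h8 (hi i' h6 h7)
  · have hx0 : (0 : ℝ) < x := by linarith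
    have hinv : (↑(x⁻¹) : ℝ) = (x : ℝ)⁻¹ := Units.val_inv_eq_inv_val x
    refine h _ (phi x Z Y) (by rw [hinv]; exact inv_pos.2 hx0)
      (by rw [hinv]; exact inv_lt_one_of_one_lt₀ hx) (phi_thr _ _ _) ?_ (phi_none _ _ _) ?_
    · intro ξ hξ
      unfold sl at hξ
      obtain ⟨i, hi, rfl⟩ := Finset.mem_image.1 hξ
      exact phi_slb _ _ _ hi
    · intro i hi
      rw [Finset.mem_sdiff] at hi
      refine ⟨gam x, gam_thr x, fun h => absurd (mem_sl.1 h) hi.2, ?_⟩
      rw [hinv]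
      exact phi_gam _ hx Z Y hi.2 hi.1

/-- the terms with a linear relation -/
theorem aZ (hSlb : SSlb) (hEvq : SEvq) (a : I → σ → ℕ) (Y : Finset I) (l : I → σ)
    (Z : Finset I) (hZ : rk a Z ≠ ee a Y Z) :
    ∃ (W : Multiset (σ → ℕ)) (N0 : ℕ), GW a Y l W ∧
      ∀ x : ℝˣ, 1 < (x : ℝ) → Rt a (↑(x⁻¹) : ℝ) W N0 (Us a (↑(x⁻¹) : ℝ) Z) := by
  classical
  obtain ⟨W, N0, hW, h⟩ := hSlb σ I a ∅ l (fun i hi => absurd hi (Finset.notMem_empty i))
    (sl σ Z) 1
  obtain ⟨κ, hκ1, hκ2, i0, hi0, hi0', hi0''⟩ := rel a Y Z hZ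
  refine ⟨W, N0, fun w hw => ?_, fun x hx => ?_⟩
  · obtain ⟨h1, h2, h3, -⟩ := hW w hw
    refine ⟨h1, h2, fun hL => ?_⟩
    have hface : ∀ i ∈ Z, i ∈ face a w := fun i hi =>
      (lam_face a w i).1 (h3 _ (mem_sl.2 hi) (by simp))
    have hs : ∑ i, κ i = 0 := by
      have h5 : ∑ i, κ i * (dot w (a i) : ℤ) = 0 := by
        have h6 : ∀ i, κ i * (dot w (a i) : ℤ) = ∑ j, (w j : ℤ) * (κ i * (a i j : ℤ)) := by
          intro i
          unfold dot
          push_cast
          rw [Finset.mul_sum]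
          exact Finset.sum_congr rfl fun j _ => by ring
        rw [Finset.sum_congr rfl fun i _ => h6 i, Finset.sum_comm]
        exact Finset.sum_eq_zero fun j _ => by rw [← Finset.mul_sum, hκ2 j, mul_zero]
      have h7 : ∑ i, κ i * (dot w (a i) : ℤ) = (∑ i, κ i) * (Nw a w : ℤ) := by
        rw [Finset.sum_mul]
        refine Finset.sum_congr rfl fun i _ => ?_
        by_cases hi : i ∈ Z
        · rw [(mem_face_iff a w i).1 (hface i hi)]
        · rw [hκ1 i hi, zero_mul, zero_mul]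
      rw [h7] at h5
      rcases mul_eq_zero.1 h5 with h8 | h8
      · exact h8
      · omega
    exact hi0'' (hL.2 i0 hi0 (hface i0 hi0') κ ⟨hs, hκ2⟩
      fun i' hi' => hκ1 i' fun h => hi' (hface i' h))
  · have hx0 : (0 : ℝ) < x := by linarith
    have hinv : (↑(x⁻¹) : ℝ) = (x : ℝ)⁻¹ := Units.val_inv_eq_inv_val x
    have hZ0 : Z ≠ ∅ := by
      rintro rfl
      exact absurd hi0' (Finset.notMem_empty _)
    have hS : Us a (↑(x⁻¹) : ℝ) Z = Ser a (↑(x⁻¹) : ℝ) (phi x Z ∅) := by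
      rw [(hEvq σ I a x hx).1 Z ∅, if_neg hZ0, zero_add]
      simp
    rw [hS]
    refine h _ (phi x Z ∅) (by rw [hinv]; exact inv_pos.2 hx0)
      (by rw [hinv]; exact inv_lt_one_of_one_lt₀ hx) (phi_thr _ _ _) ?_ (phi_none _ _ _) ?_
    · intro ξ hξ
      unfold sl at hξ
      obtain ⟨i, hi, rfl⟩ := Finset.mem_image.1 hξ
      exact phi_slb _ _ _ hi
    · exact fun i hi => absurd hi (Finset.notMem_empty i)

/-- the evaluation of `Fs` -/
theorem ev_Fs (hEvl : SEvl) (a : I → σ → ℕ) (τ : Finset I) (x : ℝˣ) (hx : 1 < (x : ℝ)) :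
    PowerSeries.map (ev x) (Fs a τ) =
      PowerSeries.C (((x : ℝ) - 1) ^ ((Fintype.card σ : ℤ) - (rk a τ : ℤ))) *
        Us a (↑(x⁻¹) : ℝ) τ := by
  ext N
  rw [PowerSeries.coeff_map, PowerSeries.coeff_C_mul]
  unfold Fs Us
  rw [PowerSeries.coeff_mk, PowerSeries.coeff_mk]
  by_cases hN : N = 0
  · rw [if_pos hN, if_pos hN, map_zero, mul_zero]
  · rw [if_neg hN, if_neg hN]
    exact (hEvl σ I a τ N (N + 1) (Nat.lt_succ_self N)).1 x hx

open Classical in
/-- the Moebius inverse of `D` along `Y` -/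
noncomputable def Dp (Y : Finset I) (D : Finset I → ℤ) (Z : Finset I) : ℝ :=
  ∑ P ∈ (Z ∩ Y).powerset, (-1 : ℝ) ^ ((Z ∩ Y) \ P).card * (D ((Z \ Y) ∪ P) : ℝ)

open Classical in
/-- the coefficient of `Z` -/
noncomputable def kap (a : I → σ → ℕ) (Y : Finset I) (D : Finset I → ℤ) (y : ℝ)
    (Z : Finset I) : ℝ :=
  (-1) ^ (Z \ Y).card * y ^ ((Fintype.card σ : ℤ) - (rk a (Z \ Y) : ℤ)) *
    (-1 / y) ^ (Z ∩ Y).card * Dp Y D Z

omit [Nonempty I] [Fintype σ] [Fintype I] in
open Classical in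
theorem Dp_zero (a : I → σ → ℕ) (Y : Finset I) (l : I → σ) (D : Finset I → ℤ)
    (hD : Inv2 a D) (Z : Finset I) {i : I} (hiZ : i ∈ Z) (hiY : i ∈ Y)
    (hv : Val a Z i (l i)) : Dp Y D Z = 0 := by
  unfold Dp
  have hi : i ∈ Z ∩ Y := Finset.mem_inter.2 ⟨hiZ, hiY⟩
  have h1 : Z ∩ Y = insert i ((Z ∩ Y).erase i) := (Finset.insert_erase hi).symm
  set R := (Z ∩ Y).erase i with hR
  have hiR : i ∉ R := Finset.notMem_erase i _
  rw [h1, Finset.sum_powerset_insert hiR, ← Finset.sum_add_distrib]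
  refine Finset.sum_eq_zero fun P hP => ?_
  rw [Finset.mem_powerset] at hP
  have hiP : i ∉ P := fun h => hiR (hP h)
  have e1 : (insert i R \ P).card = (R \ P).card + 1 := by
    rw [Finset.insert_sdiff_of_notMem _ hiP, Finset.card_insert_of_notMem
      (fun h => hiR (Finset.mem_sdiff.1 h).1)]
  have e2 : insert i R \ insert i P = R \ P := by
    ext j
    simp only [Finset.mem_sdiff, Finset.mem_insert]
    constructor
    · rintro ⟨h1, h2⟩
      push Not at h2
      exact ⟨h1.resolve_left h2.1, h2.2⟩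
    · rintro ⟨h1, h2⟩
      refine ⟨Or.inr h1, ?_⟩
      rintro (rfl | h3)
      · exact hiR h1
      · exact h2 h3
  have e3 : D ((Z \ Y) ∪ insert i P) = D ((Z \ Y) ∪ P) := by
    refine hD _ _ ⟨i, l i, ⟨?_, hv.2.1, fun i' hi' hne => hv.2.2 i' ?_ hne⟩, ?_⟩
    · exact Finset.mem_union_right _ (Finset.mem_insert_self i P)
    · rcases Finset.mem_union.1 hi' with h | h
      · exact (Finset.mem_sdiff.1 h).1
      · rcases Finset.mem_insert.1 h with h | h
        · exact absurd h hne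
        · exact (Finset.mem_inter.1 (Finset.mem_erase.1 (hP h)).2).1
    · ext j
      simp only [Finset.mem_union, Finset.mem_sdiff, Finset.mem_erase, Finset.mem_insert]
      constructor
      · rintro (h | h)
        · refine ⟨?_, Or.inl h⟩
          rintro rfl
          exact h.2 hiY
        · refine ⟨?_, Or.inr (Or.inr h)⟩
          rintro rfl
          exact hiP h
      · rintro ⟨h1, h2 | h2 | h2⟩
        · exact Or.inl h2
        · exact absurd h2 h1
        · exact Or.inr h2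
  rw [e1, e2, e3, pow_succ]
  ring

open Classical in
/-- the main identity -/
theorem ident (hEvl : SEvl) (hEvq : SEvq) (a : I → σ → ℕ) (Y : Finset I) (D : Finset I → ℤ)
    (x : ℝˣ) (hx : 1 < (x : ℝ)) :
    PowerSeries.map (ev x) (Psi a D) =
      ((∑ τ : Finset I, PowerSeries.C ((-1) ^ τ.card * (D τ : ℝ) *
        (((x : ℝ) - 1) ^ ((Fintype.card σ : ℤ) - (rk a τ : ℤ)) -
          ((x : ℝ) - 1) ^ ((Fintype.card σ : ℤ) - (ee a Y τ : ℤ)))) * Us a (↑(x⁻¹) : ℝ) τ) +
      ∑ Z : Finset I, PowerSeries.C (kap a Y D ((x : ℝ) - 1) Z) *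
        Ser a (↑(x⁻¹) : ℝ) (phi x Z Y)) -
      PowerSeries.C (((x : ℝ) - 1) ^ (Fintype.card σ : ℤ) * (D ∅ : ℝ)) *
        As a (↑(x⁻¹) : ℝ) := by
  set y : ℝ := (x : ℝ) - 1 with hy
  have hy0 : y ≠ 0 := by
    have : 0 < y := by rw [hy]; linarith
    exact this.ne'
  have h1 : PowerSeries.map (ev x) (Psi a D) = ∑ τ : Finset I, PowerSeries.C ((-1) ^ τ.card *
      (D τ : ℝ) * y ^ ((Fintype.card σ : ℤ) - (rk a τ : ℤ))) * Us a (↑(x⁻¹) : ℝ) τ := by
    unfold Psi
    rw [map_sum]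
    refine Finset.sum_congr rfl fun τ _ => ?_
    rw [map_mul, ev_Fs hEvl a τ x hx, PowerSeries.map_C, ← mul_assoc, ← map_mul]
    congr 3
    unfold ev
    rw [LaurentPolynomial.eval₂_C]
    simp
  -- the sum over `Z`
  have h2 : ∑ Z : Finset I, PowerSeries.C (kap a Y D y Z) *
      Ser a (↑(x⁻¹) : ℝ) (phi x Z Y) =
      PowerSeries.C (y ^ (Fintype.card σ : ℤ) * (D ∅ : ℝ)) * As a (↑(x⁻¹) : ℝ) +
      ∑ Z : Finset I, ∑ P ∈ (Y \ Z).powerset,
        PowerSeries.C (kap a Y D y Z * (-1 / y) ^ P.card) * Us a (↑(x⁻¹) : ℝ) (Z ∪ P) := by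
    have h3 : ∀ Z : Finset I, PowerSeries.C (kap a Y D y Z) *
        Ser a (↑(x⁻¹) : ℝ) (phi x Z Y) =
        (if Z = ∅ then PowerSeries.C (kap a Y D y Z) * As a (↑(x⁻¹) : ℝ) else 0) +
        ∑ P ∈ (Y \ Z).powerset,
          PowerSeries.C (kap a Y D y Z * (-1 / y) ^ P.card) * Us a (↑(x⁻¹) : ℝ) (Z ∪ P) := by
      intro Z
      rw [(hEvq σ I a x hx).1 Z Y, mul_add, Finset.mul_sum]
      congr 1
      · split_ifs
        · rfl
        · rw [mul_zero]
      · refine Finset.sum_congr rfl fun P _ => ?_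
        rw [map_mul, mul_assoc]
    rw [Finset.sum_congr rfl fun Z _ => h3 Z, Finset.sum_add_distrib, Finset.sum_ite_eq' ,
      if_pos (Finset.mem_univ _)]
    congr 3
    unfold kap Dp
    simp [rk_empty]
  have h4 : ∑ Z : Finset I, ∑ P ∈ (Y \ Z).powerset,
      PowerSeries.C (kap a Y D y Z * (-1 / y) ^ P.card) * Us a (↑(x⁻¹) : ℝ) (Z ∪ P) =
      ∑ τ : Finset I, PowerSeries.C ((-1) ^ τ.card * (D τ : ℝ) *
        y ^ ((Fintype.card σ : ℤ) - (ee a Y τ : ℤ))) * Us a (↑(x⁻¹) : ℝ) τ := by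
    rw [reidx Y (fun Z P => PowerSeries.C (kap a Y D y Z * (-1 / y) ^ P.card) *
      Us a (↑(x⁻¹) : ℝ) (Z ∪ P))]
    refine Finset.sum_congr rfl fun τ _ => ?_
    have h5 : ∀ Q ∈ (τ ∩ Y).powerset,
        PowerSeries.C (kap a Y D y ((τ \ Y) ∪ Q) * (-1 / y) ^ ((τ ∩ Y) \ Q).card) *
          Us a (↑(x⁻¹) : ℝ) (((τ \ Y) ∪ Q) ∪ ((τ ∩ Y) \ Q)) =
        PowerSeries.C (((-1) ^ τ.card * y ^ ((Fintype.card σ : ℤ) - (ee a Y τ : ℤ))) *
          ∑ P ∈ Q.powerset, (-1 : ℝ) ^ (Q \ P).card * (D ((τ \ Y) ∪ P) : ℝ)) *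
          Us a (↑(x⁻¹) : ℝ) τ := by
      intro Q hQ
      rw [Finset.mem_powerset] at hQ
      have hQ' : ∀ j ∈ Q, j ∈ τ ∧ j ∈ Y := fun j hj => Finset.mem_inter.1 (hQ hj)
      have e1 : ((τ \ Y) ∪ Q) ∪ ((τ ∩ Y) \ Q) = τ := by
        ext j
        simp only [Finset.mem_union, Finset.mem_sdiff, Finset.mem_inter]
        have := hQ' j
        tauto
      have e2 : ((τ \ Y) ∪ Q) ∩ Y = Q := by
        ext j
        simp only [Finset.mem_union, Finset.mem_sdiff, Finset.mem_inter]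
        have := hQ' j
        tauto
      have e3 : ((τ \ Y) ∪ Q) \ Y = τ \ Y := by
        ext j
        simp only [Finset.mem_union, Finset.mem_sdiff]
        have := hQ' j
        tauto
      rw [e1]
      congr 2
      unfold kap Dp
      rw [e2, e3]
      have hc1 : Q.card + ((τ ∩ Y) \ Q).card = (τ ∩ Y).card := by
        rw [Finset.card_sdiff_of_subset hQ]
        have := Finset.card_le_card hQ
        omega
      have hc2 : τ.card = (τ \ Y).card + (τ ∩ Y).card := by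
        rw [← Finset.card_union_of_disjoint]
        · congr 1
          ext j
          simp only [Finset.mem_union, Finset.mem_sdiff, Finset.mem_inter]
          tauto
        · rw [Finset.disjoint_left]
          intro j h1 h2
          exact (Finset.mem_sdiff.1 h1).2 (Finset.mem_inter.1 h2).2
      have e4 : (-1 / y) ^ Q.card * (-1 / y) ^ ((τ ∩ Y) \ Q).card =
          (-1) ^ (τ ∩ Y).card * y ^ (-((τ ∩ Y).card : ℤ)) := by
        rw [← pow_add, hc1, div_pow, zpow_neg, zpow_natCast, div_eq_mul_inv]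
      have e5 : y ^ ((Fintype.card σ : ℤ) - (ee a Y τ : ℤ)) =
          y ^ ((Fintype.card σ : ℤ) - (rk a (τ \ Y) : ℤ)) * y ^ (-((τ ∩ Y).card : ℤ)) := by
        rw [← zpow_add₀ hy0]
        congr 1
        unfold ee
        push_cast
        ring
      rw [e5, hc2, pow_add]
      calc _ = (-1) ^ (τ \ Y).card * y ^ ((Fintype.card σ : ℤ) - (rk a (τ \ Y) : ℤ)) *
            ((-1 / y) ^ Q.card * (-1 / y) ^ ((τ ∩ Y) \ Q).card) *
            ∑ P ∈ Q.powerset, (-1 : ℝ) ^ (Q \ P).card * (D ((τ \ Y) ∪ P) : ℝ) := by ring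
        _ = _ := by
          rw [e4]
          ring
    rw [Finset.sum_congr rfl h5, ← Finset.sum_mul, ← map_sum, ← Finset.mul_sum,
      mob (fun P => (D ((τ \ Y) ∪ P) : ℝ)) (τ ∩ Y)]
    have e6 : (τ \ Y) ∪ (τ ∩ Y) = τ := by
      ext j
      simp only [Finset.mem_union, Finset.mem_sdiff, Finset.mem_inter]
      tauto
    rw [e6]
    congr 2
    ring
  rw [h1, h2, h4, add_comm (PowerSeries.C (y ^ (Fintype.card σ : ℤ) * (D ∅ : ℝ)) * _),
    ← add_assoc, add_sub_cancel_right, ← Finset.sum_add_distrib]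
  refine Finset.sum_congr rfl fun τ _ => ?_
  rw [← add_mul, ← map_add]
  congr 2
  ring

open Classical in
theorem ev_QQ (hEvl : SEvl) (a : I → σ → ℕ) (x : ℝˣ) (hx : 1 < (x : ℝ)) :
    PowerSeries.map (ev x) (QQ a) =
      PowerSeries.C (((x : ℝ) - 1) ^ (Fintype.card σ : ℤ)) *
        ∑ τ : Finset I, Us a (↑(x⁻¹) : ℝ) τ := by
  have hy0 : (x : ℝ) - 1 ≠ 0 := by
    have : 0 < (x : ℝ) - 1 := by linarith
    exact this.ne'
  unfold QQ
  rw [map_sum, Finset.mul_sum]
  refine Finset.sum_congr rfl fun τ _ => ?_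
  rw [map_mul, ev_Fs hEvl a τ x hx, PowerSeries.map_C, ← mul_assoc, ← map_mul]
  congr 3
  rw [map_pow, map_sub, map_one]
  have : ev x (LaurentPolynomial.T 1) = (x : ℝ) := by
    unfold ev
    rw [LaurentPolynomial.eval₂_T, zpow_one]
  rw [this, ← zpow_natCast, ← zpow_add₀ hy0]
  congr 1
  ring

end Poles

end PSI

/-- PSI: the universal series have no poles which are labelled -/
theorem sPsi (hEvl : SEvl) (hEvq : SEvq) (hSlb : SSlb) : SPsi := by
  classical
  intro σ I _ _ _ a Y l hl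
  have hA : ∀ Z : Finset I, ∃ (W : Multiset (σ → ℕ)) (N0 : ℕ), PSI.GW a Y l W ∧
      (rk a Z ≠ PSI.ee a Y Z → ∀ x : ℝˣ, 1 < (x : ℝ) →
        PSI.Rt a (↑(x⁻¹) : ℝ) W N0 (Us a (↑(x⁻¹) : ℝ) Z)) := by
    intro Z
    by_cases hZ : rk a Z ≠ PSI.ee a Y Z
    · obtain ⟨W, N0, h1, h2⟩ := PSI.aZ hSlb hEvq a Y l Z hZ
      exact ⟨W, N0, h1, fun _ => h2⟩
    · exact ⟨0, 0, fun w hw => absurd hw (Multiset.notMem_zero w), fun h => absurd h hZ⟩
  have hB : ∀ Z : Finset I, ∃ (W : Multiset (σ → ℕ)) (N0 : ℕ), PSI.GW a Y l W ∧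
      ((∀ i ∈ Z, i ∈ Y → ¬ Val a Z i (l i)) → ∀ x : ℝˣ, 1 < (x : ℝ) →
        PSI.Rt a (↑(x⁻¹) : ℝ) W N0 (Ser a (↑(x⁻¹) : ℝ) (phi x Z Y))) := by
    intro Z
    by_cases hZ : ∀ i ∈ Z, i ∈ Y → ¬ Val a Z i (l i)
    · obtain ⟨W, N0, h1, h2⟩ := PSI.bZ hSlb a Y l hl Z hZ
      exact ⟨W, N0, h1, fun _ => h2⟩
    · exact ⟨0, 0, fun w hw => absurd hw (Multiset.notMem_zero w), fun h => absurd h hZ⟩
  choose WA NA gA hA using hA
  choose WB NB gB hB using hB
  set W : Multiset (σ → ℕ) := (∑ Z, WA Z) + ∑ Z, WB Z with hW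
  set M : ℕ := (∑ Z, NA Z) + (∑ Z, NB Z) + 2 + (W.map (Nw a)).sum with hM
  have hWA : ∀ Z, WA Z ≤ W := fun Z =>
    (Finset.single_le_sum (f := WA) (fun _ _ => Multiset.zero_le _) (Finset.mem_univ Z)).trans
      (Multiset.le_add_right _ _)
  have hWB : ∀ Z, WB Z ≤ W := fun Z =>
    (Finset.single_le_sum (f := WB) (fun _ _ => Multiset.zero_le _) (Finset.mem_univ Z)).trans
      (Multiset.le_add_left _ _)
  have hNA : ∀ Z, NA Z ≤ ∑ Z, NA Z := fun Z =>
    Finset.single_le_sum (f := NA) (fun _ _ => Nat.zero_le _) (Finset.mem_univ Z)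
  have hNB : ∀ Z, NB Z ≤ ∑ Z, NB Z := fun Z =>
    Finset.single_le_sum (f := NB) (fun _ _ => Nat.zero_le _) (Finset.mem_univ Z)
  refine ⟨W, M + 1, fun w hw => ?_, fun x hx D hD N hN => ?_⟩
  · rcases Multiset.mem_add.1 hw with h | h
    · obtain ⟨Z, -, hZ⟩ := Multiset.mem_sum.1 h
      exact gA Z w hZ
    · obtain ⟨Z, -, hZ⟩ := Multiset.mem_sum.1 h
      exact gB Z w hZ
  -- the part without labelled poles
  have hT : PSI.Rt a (↑(x⁻¹) : ℝ) W M
      ((∑ τ : Finset I, PowerSeries.C ((-1) ^ τ.card * (D τ : ℝ) *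
        (((x : ℝ) - 1) ^ ((Fintype.card σ : ℤ) - (rk a τ : ℤ)) -
          ((x : ℝ) - 1) ^ ((Fintype.card σ : ℤ) - (PSI.ee a Y τ : ℤ)))) *
            Us a (↑(x⁻¹) : ℝ) τ) +
      ∑ Z : Finset I, PowerSeries.C (PSI.kap a Y D ((x : ℝ) - 1) Z) *
        Ser a (↑(x⁻¹) : ℝ) (phi x Z Y)) := by
    refine PSI.Rt.add (PSI.Rt.sum _ _ fun τ _ => ?_) (PSI.Rt.sum _ _ fun Z _ => ?_)
    · by_cases h : rk a τ = PSI.ee a Y τ
      · rw [h, sub_self, mul_zero, map_zero, zero_mul]
        exact PSI.Rt.zero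
      · refine PSI.Rt.smul (((hA τ h x hx).le (hWA τ)).mono ?_) _
        have := hNA τ
        omega
    · by_cases h : ∀ i ∈ Z, i ∈ Y → ¬ Val a Z i (l i)
      · refine PSI.Rt.smul (((hB Z h x hx).le (hWB Z)).mono ?_) _
        have := hNB Z
        omega
      · push Not at h
        obtain ⟨i, h1, h2, h3⟩ := h
        unfold PSI.kap
        rw [PSI.Dp_zero a Y l D hD Z h1 h2 h3, mul_zero, map_zero, zero_mul]
        exact PSI.Rt.zero
  have hid := PSI.ident hEvl hEvq a Y D x hx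
  constructor
  · intro h0
    rw [h0, Int.cast_zero, mul_zero, map_zero, zero_mul, sub_zero] at hid
    rw [hid]
    exact hT N (by omega)
  · intro h1
    have e : PowerSeries.map (ev x) ((1 - PowerSeries.X) * Psi a D - QQ a) =
        (1 - PowerSeries.X) * PowerSeries.map (ev x) (Psi a D) -
          PowerSeries.map (ev x) (QQ a) := by
      rw [map_sub, map_mul, map_sub, map_one, PowerSeries.map_X]
    rw [e, hid, PSI.ev_QQ hEvl a x hx, h1,
      Int.cast_one, mul_one, mul_sub (1 - PowerSeries.X), mul_left_comm (1 - PowerSeries.X)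
        (PowerSeries.C (((x : ℝ) - 1) ^ (Fintype.card σ : ℤ))), sub_sub, ← mul_add, mul_sub,
      map_sub, hT.oneSub N hN, zero_sub, neg_eq_zero]
    have h2 : PSI.Rt a (↑(x⁻¹) : ℝ) 0 2 ((1 - PowerSeries.X) * As a (↑(x⁻¹) : ℝ) +
        ∑ τ : Finset I, Us a (↑(x⁻¹) : ℝ) τ) := by
      intro N hN
      unfold dW
      rw [Multiset.map_zero, Multiset.prod_zero, one_mul, map_add,
        (hEvq σ I a x hx).2 N hN, map_sum, neg_add_cancel]
    exact ((h2.le (Multiset.zero_le W)).smul _) N (by omega)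

end Pool.Newt2
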